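import Pool.Agent.K3h46.AS.Stm3
import Pool.Agent.K3h46.AS.AN1

/-!
# AS3 brick AN1P (helper46): orders and leading coefficients at infinity
-/

set_option autoImplicit false

namespace Pool.Agent.K3h33.AS

open Pool.Agent.K3h46.AS Pool.Agent.K3h46.AS.AN1

section

variable {κ : Type} [Field κ]

/-- `∑ c j z ^ j`, `j ≤ N` -/
noncomputable def Sm (z : LaurentSeries κ) (N : ℕ) (c : ℕ → κ) : LaurentSeries κ :=
  ∑ j ∈ Finset.range (N + 1), HahnSeries.C (c j) * z ^ j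

lemma evz_eq {F : Type} [Field F] (ι : Polynomial F →+* κ) (z : LaurentSeries κ)
    {A : Polynomial (Polynomial F)} {N : ℕ} (hA : A.natDegree ≤ N) :
    evz ι z A = Sm z N fun j => ι (A.coeff j) := by
  unfold evz Sm
  rw [Polynomial.coe_eval₂RingHom, Polynomial.eval₂_eq_sum_range' _ (Nat.lt_succ_of_le hA)]
  rfl

lemma der_Sm (D : Derivation ℤ (LaurentSeries κ) (LaurentSeries κ)) {z : LaurentSeries κ}
    (hz : z ≠ 0) (N : ℕ) (c c' : ℕ → κ)
    (hD : ∀ j, D (HahnSeries.C (c j)) = HahnSeries.C (c' j)) :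
    D (Sm z N c) = Sm z N c' + Sm z N (fun j => (j : κ) * c j) * (D z / z) := by
  unfold Sm
  rw [map_sum, Finset.sum_mul, ← Finset.sum_add_distrib]
  refine Finset.sum_congr rfl fun j _ => ?_
  rw [Derivation.leibniz, hD, Derivation.leibniz_pow]
  simp only [smul_eq_mul, nsmul_eq_mul]
  rcases j with _ | j
  · simp
  · rw [Nat.add_sub_cancel, map_mul, map_natCast]
    field_simp
    ring

end

theorem t_AN1P : S_AN1P := by
  intro p _ d F _ _ P hd0 hdp hPd hΨ κ _ _ ι hι δ hδ θ Δ hθ hΔ z hz N A B hN hA hB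
  have hp := (Fact.out : p.Prime)
  set Ψ := P.coeff d with hΨdef
  set Φ := ι Ψ with hΦ
  have hΦ0 : Φ ≠ 0 := by
    rw [hΦ]
    exact (map_ne_zero_iff ι hι).mpr hΨ
  set k := (p - 1) / d with hk
  have hkd : k * d = p - 1 := Nat.div_mul_cancel hdp
  have hp2 := hp.two_le
  have hdlt : d < p := lt_of_le_of_lt (Nat.le_of_dvd (by omega) hdp) (by omega)
  have hk1 : 1 ≤ k := by
    rcases Nat.eq_zero_or_pos k with h | h
    · rw [h, zero_mul] at hkd
      omega
    · exact h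
  have hdκ : (d : κ) ≠ 0 := by
    intro h
    rw [CharP.cast_eq_zero_iff κ p] at h
    exact absurd (Nat.le_of_dvd hd0 h) (by omega)
  set ξ := Φ ^ (k * (p + 1)) with hξ
  have hξ0 : ξ ≠ 0 := pow_ne_zero _ hΦ0
  have hzL : LB (-(p : ℤ)) z ξ := ⟨hz.low, hz.top⟩
  have hz0 : z ≠ 0 := by
    intro h
    have h1 := hzL.top
    rw [h] at h1
    exact hξ0 (by rw [← h1]; rfl)
  have hpneg : -(p : ℤ) < 0 := by omega
  have hpE : ((p : ℕ) : LaurentSeries κ) = 0 := by
    have : ((p : ℕ) : LaurentSeries κ) = HahnSeries.C ((p : ℕ) : κ) := (map_natCast _ _).symm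
    rw [this, CharP.cast_eq_zero, map_zero]
  -- constants
  have hθC : ∀ c : κ, θ (HahnSeries.C c) = HahnSeries.C 0 := by
    intro c
    ext i
    rw [hθ, HahnSeries.C_apply, map_zero]
    by_cases hi : i = 0
    · rw [hi]; simp
    · rw [HahnSeries.coeff_single_of_ne hi]; simp
  have hΔC : ∀ c : κ, Δ (HahnSeries.C c) = HahnSeries.C (δ c) := by
    intro c
    ext i
    rw [hΔ, HahnSeries.C_apply, HahnSeries.C_apply]
    by_cases hi : i = 0
    · rw [hi]; simp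
    · rw [HahnSeries.coeff_single_of_ne hi, HahnSeries.coeff_single_of_ne hi, map_zero]
  have hcomm : ∀ z, θ (Δ z) = Δ (θ z) := by
    intro z
    ext i
    rw [hθ, hΔ, hΔ, hθ, Derivation.leibniz]
    have : δ ((i : ℤ) : κ) = 0 := by
      rw [← zsmul_one, map_zsmul, Derivation.map_one_eq_zero, smul_zero]
    rw [this, smul_zero, add_zero, smul_eq_mul]
  have hSz : ∀ M : ℕ, Sm z M (fun _ => (0 : κ)) = 0 := by
    intro M
    unfold Sm
    simp
  -- the two quotients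
  set u₁ := θ z / z with hu₁
  set u₂ := Δ z / z with hu₂
  have huu : Δ u₁ = θ u₂ := by
    rw [hu₁, hu₂, Derivation.leibniz_div, Derivation.leibniz_div, hcomm]
    simp only [smul_eq_mul]
    ring
  -- the equation
  set w : LaurentSeries κ := HahnSeries.single (-(d : ℤ)) (Φ ^ p) with hw
  have hweq : evz ι z P = w ^ p - w := hz.eq
  have hwL : LB (-(d : ℤ)) w (Φ ^ p) := by
    constructor
    · intro i hi
      rw [hw, HahnSeries.coeff_single_of_ne hi.ne]
    · rw [hw, HahnSeries.coeff_single_same]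
  have hθw : θ w = -(HahnSeries.C (d : κ) * w) := by
    ext i
    rw [hθ, HahnSeries.coeff_neg, HahnSeries.C_mul_eq_smul, HahnSeries.coeff_smul, smul_eq_mul]
    by_cases hi : i = -(d : ℤ)
    · rw [hi]; push_cast; ring
    · rw [hw, HahnSeries.coeff_single_of_ne hi]; ring
  have hΔw : Δ w = 0 := by
    ext i
    rw [hΔ]
    by_cases hi : i = -(d : ℤ)
    · rw [hi, hw, HahnSeries.coeff_single_same, Derivation.leibniz_pow,
        ← Nat.cast_smul_eq_nsmul κ, CharP.cast_eq_zero, zero_smul]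
      rfl
    · rw [hw, HahnSeries.coeff_single_of_ne hi, map_zero]; rfl
  have hpow : ∀ D : Derivation ℤ (LaurentSeries κ) (LaurentSeries κ), D (w ^ p) = 0 := by
    intro D
    rw [Derivation.leibniz_pow, ← Nat.cast_smul_eq_nsmul (LaurentSeries κ), hpE, zero_smul]
  -- the chain rule
  have cθ : ∀ {M : ℕ} {E : Polynomial (Polynomial F)}, E.natDegree ≤ M →
      θ (evz ι z E) = Sm z M (fun j => (j : κ) * ι (E.coeff j)) * u₁ := by
    intro M E hE
    rw [evz_eq ι z hE, der_Sm θ hz0 M _ (fun _ => 0) (fun j => hθC _), hSz, zero_add]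
  have cΔ : ∀ {M : ℕ} {E : Polynomial (Polynomial F)}, E.natDegree ≤ M →
      Δ (evz ι z E) = Sm z M (fun j => ι (Polynomial.derivative (E.coeff j))) +
        Sm z M (fun j => (j : κ) * ι (E.coeff j)) * u₂ := by
    intro M E hE
    rw [evz_eq ι z hE, der_Sm Δ hz0 M _ (fun j => ι (Polynomial.derivative (E.coeff j)))
      (fun j => by rw [hΔC, hδ])]
  set Q := Sm z d (fun j => (j : κ) * ι (P.coeff j)) with hQ
  set Q' := Sm z d (fun j => ι (Polynomial.derivative (P.coeff j))) with hQ'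
  have hQθ : Q * u₁ = HahnSeries.C (d : κ) * w := by
    have h1 := cθ hPd
    rw [hweq, map_sub, hpow, hθw] at h1
    rw [hQ, ← h1]
    ring
  have hQΔ : Q * u₂ = -Q' := by
    have h1 := cΔ hPd
    rw [hweq, map_sub, hpow, hΔw] at h1
    rw [hQ, hQ']
    linear_combination -h1
  have hQL : LB ((d : ℤ) * (-(p : ℤ))) Q ((d : κ) * Φ * ξ ^ d) :=
    LB.sum hzL hpneg (fun j => (j : κ) * ι (P.coeff j)) d
  have hQ'L : LB ((d : ℤ) * (-(p : ℤ))) Q' (ι (Polynomial.derivative Ψ) * ξ ^ d) :=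
    LB.sum hzL hpneg (fun j => ι (Polynomial.derivative (P.coeff j))) d
  have hq0 : (d : κ) * Φ * ξ ^ d ≠ 0 := mul_ne_zero (mul_ne_zero hdκ hΦ0) (pow_ne_zero _ hξ0)
  have hpp : Φ ^ p = Φ ^ (p - 1) * Φ := by
    rw [← pow_succ, Nat.sub_add_cancel hp.one_le]
  have hξd : ξ ^ d = Φ ^ (p ^ 2 - 1) := by
    rw [hξ, ← pow_mul]
    congr 1
    have h1 := Nat.sq_sub_sq p 1
    rw [one_pow] at h1
    rw [h1, mul_right_comm, hkd, mul_comm]
  have hu₁L : LB (-(d : ℤ) + (d : ℤ) * p) u₁ (Φ ^ (p - 1) / ξ ^ d) := by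
    refine hQL.of_mul hq0 ?_
    have e2 : (d : κ) * Φ * ξ ^ d * (Φ ^ (p - 1) / ξ ^ d) = (d : κ) * Φ ^ p := by
      rw [hpp]
      field_simp
    have e3 : (d : ℤ) * (-(p : ℤ)) + (-(d : ℤ) + (d : ℤ) * p) = -(d : ℤ) := by
      ring
    rw [hQθ, e2, e3]
    exact hwL.Cmul (d : κ)
  have hu₂L : LB 0 u₂ (-(ι (Polynomial.derivative Ψ)) / ((d : κ) * Φ)) := by
    refine hQL.of_mul hq0 ?_
    have e2 : (d : κ) * Φ * ξ ^ d * (-(ι (Polynomial.derivative Ψ)) / ((d : κ) * Φ)) =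
        -(ι (Polynomial.derivative Ψ) * ξ ^ d) := by
      field_simp
    rw [hQΔ, e2, add_zero]
    exact hQ'L.neg
  have hAL : LB ((N : ℤ) * (-(p : ℤ))) (evz ι z A) (ι (A.coeff N) * ξ ^ N) := by
    rw [evz_eq ι z hA]
    exact LB.sum hzL hpneg (fun j => ι (A.coeff j)) N
  have hBL : LB ((N : ℤ) * (-(p : ℤ))) (evz ι z B) (ι (B.coeff N) * ξ ^ N) := by
    rw [evz_eq ι z hB]
    exact LB.sum hzL hpneg (fun j => ι (B.coeff j)) N
  have hA'L : LB ((N : ℤ) * (-(p : ℤ))) (Sm z N fun j => ι (Polynomial.derivative (A.coeff j)))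
      (ι (Polynomial.derivative (A.coeff N)) * ξ ^ N) :=
    LB.sum hzL hpneg (fun j => ι (Polynomial.derivative (A.coeff j))) N
  have hB'L : LB ((N : ℤ) * (-(p : ℤ))) (Sm z N fun j => (j : κ) * ι (B.coeff j))
      ((N : κ) * ι (B.coeff N) * ξ ^ N) :=
    LB.sum hzL hpneg (fun j => (j : κ) * ι (B.coeff j)) N
  have hβ₁ := hAL.mul hu₁L
  have hβ₂ : LB ((N : ℤ) * (-(p : ℤ))) (evz ι z A * u₂ + evz ι z B)
      (ι (A.coeff N) * ξ ^ N * (-(ι (Polynomial.derivative Ψ)) / ((d : κ) * Φ)) +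
        ι (B.coeff N) * ξ ^ N) := by
    have h1 := hAL.mul hu₂L
    rw [add_zero] at h1
    exact h1.add hBL
  have hR : LB ((N : ℤ) * (-(p : ℤ)) + (-(d : ℤ) + (d : ℤ) * p))
      (Δ (evz ι z A * u₁) - θ (evz ι z A * u₂ + evz ι z B))
      ((ι (Polynomial.derivative (A.coeff N)) * ξ ^ N - (N : κ) * ι (B.coeff N) * ξ ^ N) *
        (Φ ^ (p - 1) / ξ ^ d)) := by
    have h1 := (hA'L.sub hB'L).mul hu₁L
    have e1 : Δ (evz ι z A * u₁) - θ (evz ι z A * u₂ + evz ι z B) =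
        (Sm z N (fun j => ι (Polynomial.derivative (A.coeff j))) -
          Sm z N (fun j => (j : κ) * ι (B.coeff j))) * u₁ := by
      rw [map_add, Derivation.leibniz, Derivation.leibniz, huu, cθ hA, cθ hB, cΔ hA]
      simp only [smul_eq_mul]
      ring
    rw [e1]
    exact h1
  have hdp1 : ((p - 1 : ℕ) : ℤ) = (p : ℤ) - 1 := by
    rw [Nat.cast_sub hp.one_le]; simp
  have i1 : (N : ℤ) * (-(p : ℤ)) + (-(d : ℤ) + (d : ℤ) * p) =
      -((p : ℤ) * (N : ℤ) + d - p * d) := by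
    ring
  have i2 : (N : ℤ) * (-(p : ℤ)) = -((p : ℤ) * (N : ℤ)) := by
    ring
  have i3 : (N : ℤ) * (-(p : ℤ)) + (-(d : ℤ) + (d : ℤ) * p) =
      -((p : ℤ) * (N : ℤ) - d * ((p : ℤ) - 1)) := by
    ring
  have hξN : ξ ^ N = Φ ^ (k * p * N) * (Φ ^ (N * k - 1) * Φ) := by
    have h1 : 1 ≤ N * k := Nat.one_le_iff_ne_zero.mpr (mul_ne_zero (by omega) (by omega))
    rw [← pow_succ, Nat.sub_add_cancel h1, ← pow_add, hξ, ← pow_mul]
    congr 1
    ring
  refine ⟨?_, ?_, ?_, ?_, ?_⟩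
  · intro i hi
    exact hβ₁.low i (by rw [i1]; exact hi)
  · intro i hi
    exact hβ₂.low i (by rw [i2]; exact hi)
  · have h1 := hβ₂.top
    rw [i2] at h1
    rw [h1, hξN]
    simp only [map_mul, map_sub, map_pow, map_natCast]
    rw [← hΦ, ← hk]
    field_simp
    ring
  · intro i hi
    exact hR.low i (by rw [i3]; exact hi)
  · have h1 := hR.top
    rw [i3] at h1
    rw [h1, ← hξd]
    simp only [map_mul, map_sub, map_natCast]
    rw [pow_mul, ← hξ]
    field_simp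
    ring

end Pool.Agent.K3h33.AS
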